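import Pool.Agent.H9.SC

set_option autoImplicit false

namespace Pool.Agent.Results.MP_44775e_co.Counter

open Pool.Agent.H9.SC

theorem result : ∃ (n : ℕ) (G : SimpleGraph (Fin n)),
    bicliqueNumber G + 2 ≤ strongChromaticNumber G := by
  refine ⟨78, G, ?_⟩
  have h1 := bic_le
  have h2 := seven_le
  omega

end Pool.Agent.Results.MP_44775e_co.Counter
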